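import Mathlib
import Pool.Agent.Helper30.AggDefs
import Pool.Agent.Helper30.AggProof

set_option autoImplicit false

namespace Pool.Agent.Results.MP_9b412f_an.InfinitelyManyNeeded

open Pool.Agent.Helper30.Agg

/-- There are three quadratic functions on `ℝ⁴` with symmetric quadratic parts whose homogeneous
quadratic map has hidden hyperplane convexity, with `S` nonempty and `conv S ≠ ℝ⁴`, such that
`conv S` is not the intersection of the sets `S_l` over any finite nonempty set of good
aggregations `l`. -/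
theorem result :
    ∃ (A : Fin 3 → Matrix (Fin 4) (Fin 4) ℝ) (b : Fin 3 → Fin 4 → ℝ) (c : Fin 3 → ℝ),
      (∀ i, (A i).IsSymm) ∧ HHC A b c ∧ (solSet A b c).Nonempty ∧
      convexHull ℝ (solSet A b c) ≠ Set.univ ∧
      ¬ ∃ F : Finset (Fin 3 → ℝ), F.Nonempty ∧ (∀ l ∈ F, IsGood A b c l) ∧
        convexHull ℝ (solSet A b c) = ⋂ l ∈ F, aggSet A b c l :=
  ⟨exA, exb, exc, exA_symm, ex_HHC, ex_nonempty, ex_ne_univ, ex_not_finite⟩

end Pool.Agent.Results.MP_9b412f_an.InfinitelyManyNeeded
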